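import Pool.Agent.Helper39.CR.GoalsS

/-!
Project CAR, packet PFB: positive functionals on unital C*-algebras.
-/

open scoped ComplexOrder ComplexConjugate

namespace Pool.Agent.Helper20.CR

open Pool.Agent.Helper39.CR

section

variable {B : Type} [CStarAlgebra B] (f : B →ₗ[ℂ] ℂ)

theorem im_zero (hf : ∀ b, 0 ≤ f (star b * b)) (b : B) : (f (star b * b)).im = 0 :=
  ((Complex.le_def.1 (hf b)).2).symm

theorem re_nonneg (hf : ∀ b, 0 ≤ f (star b * b)) (b : B) : 0 ≤ (f (star b * b)).re :=
  (Complex.le_def.1 (hf b)).1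

theorem herm (hf : ∀ b, 0 ≤ f (star b * b)) (a : B) : f (star a) = conj (f a) := by
  have h1 := im_zero f hf (a + 1)
  have h2 := im_zero f hf (Complex.I • a + 1)
  have h3 := im_zero f hf a
  have h4 := im_zero f hf 1
  have h5 := im_zero f hf (Complex.I • a)
  have e1 : star (a + 1) * (a + 1) = star a * a + star a + a + star (1 : B) * 1 := by
    rw [star_add, star_one]; noncomm_ring
  have e2 : star (Complex.I • a + 1) * (Complex.I • a + 1) =
      star (Complex.I • a) * (Complex.I • a) + star (Complex.I • a) + Complex.I • a +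
        star (1 : B) * 1 := by
    rw [star_add, star_one, add_mul, mul_add, mul_add, one_mul, mul_one, mul_one]; abel
  rw [e1] at h1
  rw [e2] at h2
  have e3 : star (Complex.I • a) = (-Complex.I) • star a := by
    rw [star_smul]; simp
  simp only [map_add, Complex.add_im] at h1 h2
  rw [e3] at h2 h5
  rw [map_smul, map_smul] at h2
  simp only [smul_eq_mul, Complex.mul_im, Complex.neg_re, Complex.neg_im, Complex.I_re,
    Complex.I_im] at h2
  apply Complex.ext
  · rw [Complex.conj_re]; linarith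
  · rw [Complex.conj_im]; linarith

/-- The form of a positive functional. -/
noncomputable def core (hf : ∀ b, 0 ≤ f (star b * b)) : PreInnerProductSpace.Core ℂ B where
  inner a b := f (star a * b)
  conj_inner_symm a b := by
    change conj (f (star b * a)) = f (star a * b)
    rw [← herm f hf, star_mul, star_star]
  re_inner_nonneg a := re_nonneg f hf a
  add_left a b c := by
    change f (star (a + b) * c) = f (star a * c) + f (star b * c)
    rw [star_add, add_mul, map_add]
  smul_left a b r := by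
    change f (star (r • a) * b) = conj r * f (star a * b)
    rw [star_smul, smul_mul_assoc, map_smul]; rfl

theorem cs (hf : ∀ b, 0 ≤ f (star b * b)) (b : B) :
    ‖f b‖ * ‖f b‖ ≤ (f 1).re * (f (star b * b)).re := by
  letI := core f hf
  have h := InnerProductSpace.Core.inner_mul_inner_self_le (𝕜 := ℂ) (F := B) (1 : B) b
  change ‖f (star 1 * b)‖ * ‖f (star b * 1)‖ ≤ (f (star 1 * 1)).re * (f (star b * b)).re at h
  rw [star_one, one_mul, mul_one, one_mul, herm f hf, RCLike.norm_conj] at h
  exact h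

theorem bd (hf : ∀ b, 0 ≤ f (star b * b)) (b : B) :
    (f (star b * b)).re ≤ ‖b‖ ^ 2 * (f 1).re := by
  letI := CStarAlgebra.spectralOrder B
  haveI := CStarAlgebra.spectralOrderedRing B
  have h1 : star b * b ≤ algebraMap ℝ B ‖star b * b‖ :=
    IsSelfAdjoint.le_algebraMap_norm_self (ha := IsSelfAdjoint.star_mul_self b)
  have h2 : 0 ≤ algebraMap ℝ B ‖star b * b‖ - star b * b := sub_nonneg.2 h1
  obtain ⟨c, hc⟩ := CStarAlgebra.nonneg_iff_eq_star_mul_self.1 h2
  have h3 := re_nonneg f hf c
  rw [← hc, map_sub, Complex.sub_re, CStarRing.norm_star_mul_self, Algebra.algebraMap_eq_smul_one]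
    at h3
  have h4 : f ((‖b‖ * ‖b‖) • (1 : B)) = ((‖b‖ * ‖b‖ : ℝ) : ℂ) * f 1 := by
    have : ((‖b‖ * ‖b‖) • (1 : B)) = (((‖b‖ * ‖b‖ : ℝ) : ℂ)) • (1 : B) :=
      (Complex.coe_smul (‖b‖ * ‖b‖) (1 : B)).symm
    rw [this, map_smul, smul_eq_mul]
  rw [h4, Complex.re_ofReal_mul] at h3
  nlinarith [h3]

theorem pfb : S_PFB := by
  intro B _ f hf b
  have h1 := cs f hf b
  have h2 := bd f hf b
  have h0 : 0 ≤ (f 1).re := by
    have := re_nonneg f hf 1
    simpa using this
  have h3 : ‖f b‖ ^ 2 ≤ (‖b‖ * (f 1).re) ^ 2 := by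
    calc ‖f b‖ ^ 2 = ‖f b‖ * ‖f b‖ := by ring
      _ ≤ (f 1).re * (f (star b * b)).re := h1
      _ ≤ (f 1).re * (‖b‖ ^ 2 * (f 1).re) := mul_le_mul_of_nonneg_left h2 h0
      _ = (‖b‖ * (f 1).re) ^ 2 := by ring
  exact le_of_sq_le_sq h3 (mul_nonneg (norm_nonneg b) h0)

end

end Pool.Agent.Helper20.CR
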